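import Pool.Agent.helper99.WN.SpecB

set_option autoImplicit false

/-! Row wn:BB (helper79). -/

open Classical

namespace Pool.Agent.WN

theorem BB_conn {V : Type} {k : ℕ} {E : Gr V k} (hE : Conn E) (e₀ : V × Fin k × V)
    (h : ∃ g, PL (lf (E.erase e₀)) e₀.1 e₀.2.2 g) : Conn (E.erase e₀) := by
  have hedge : ∀ (b c : V) (x : Fr k), (b, x, c) ∈ lf E → ∃ g', PL (lf (E.erase e₀)) b c g' := by
    rintro b c x ⟨e, he, hex⟩
    rw [Prod.mk.injEq, Prod.mk.injEq] at hex
    obtain ⟨rfl, rfl, rfl⟩ := hex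
    by_cases h0 : e = e₀
    · subst h0
      exact h
    · exact ⟨_, PL.edge (mem_lf (Finset.mem_erase.2 ⟨h0, he⟩))⟩
  intro a b
  obtain ⟨g, hg⟩ := hE a b
  induction hg with
  | nil => exact ⟨1, PL.nil _⟩
  | fwd _ he ih =>
    obtain ⟨g1, h1⟩ := ih
    obtain ⟨g2, h2⟩ := hedge _ _ _ he
    exact ⟨_, h1.trans h2⟩
  | bwd _ he ih =>
    obtain ⟨g1, h1⟩ := ih
    obtain ⟨g2, h2⟩ := hedge _ _ _ he
    exact ⟨_, h1.trans h2.symm⟩

theorem BB_tuple {K : Type} [Group K] {m' k : ℕ} (r : Fin m' → K) (hk : m' + 1 ≤ k) (a : K)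
    (H : Set K) (hH : ∀ h, h ∈ H ↔ h ∈ Subgroup.closure (Set.range r)) :
    ∃ c : Fin k → K, (∃ i, c i = a) ∧
      Subgroup.closure (Set.range c) = Subgroup.closure (H ∪ {a}) := by
  refine ⟨fun i => if h : i.val < m' then r ⟨i.val, h⟩ else if i.val = m' then a else 1,
    ⟨⟨m', by omega⟩, by simp⟩, ?_⟩
  apply le_antisymm
  · rw [Subgroup.closure_le]
    rintro _ ⟨i, rfl⟩
    show (if h : i.val < m' then r ⟨i.val, h⟩ else if i.val = m' then a else 1) ∈
      Subgroup.closure (H ∪ {a})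
    split_ifs with h1 h2
    · exact Subgroup.subset_closure (Or.inl ((hH _).2 (Subgroup.subset_closure ⟨_, rfl⟩)))
    · exact Subgroup.subset_closure (Or.inr rfl)
    · exact Subgroup.one_mem _
  · rw [Subgroup.closure_le]
    rintro h (h1 | h1)
    · have h2 : Subgroup.closure (Set.range r) ≤ Subgroup.closure (Set.range fun i : Fin k =>
          if h : i.val < m' then r ⟨i.val, h⟩ else if i.val = m' then a else 1) := by
        rw [Subgroup.closure_le]
        rintro _ ⟨j, rfl⟩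
        apply Subgroup.subset_closure
        refine ⟨⟨j.val, by omega⟩, ?_⟩
        simp
      exact h2 ((hH h).1 h1)
    · rw [Set.mem_singleton_iff] at h1
      subst h1
      apply Subgroup.subset_closure
      refine ⟨⟨m', by omega⟩, ?_⟩
      simp

theorem BB (hGR : GR_stmt) (hQU : QU_stmt) : BB_stmt := by
  intro V _ k E W N m z t0 v0 hW hE hcard hm hcyc hone
  obtain ⟨hrun, hper⟩ := hcyc
  have hN : 0 < N := hW.pos
  have hmN : 2 * (N : ℤ) ≤ (m : ℤ) * N := by
    have : (2 : ℤ) ≤ m := by exact_mod_cast hm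
    have hN' : (0 : ℤ) ≤ N := by positivity
    nlinarith
  have he₀E : ed W z t0 ∈ E := ed_mem (hrun t0)
  have hE₁card : (E.erase (ed W z t0)).card + 1 = E.card := Finset.card_erase_add_one he₀E
  obtain ⟨E₁, hE₁⟩ : ∃ E₁ : Gr V k, E₁ = E.erase (ed W z t0) := ⟨_, rfl⟩
  rw [← hE₁] at hE₁card
  -- the run avoids the edge
  have hrun₁ : Run (Rl E₁) W (t0 + 1) (t0 + (m : ℤ) * N) z := by
    intro t ht1 ht2
    rw [← ed_mem_iff, hE₁, Finset.mem_erase]
    refine ⟨?_, ed_mem (hrun t)⟩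
    intro h
    have h1 := Int.le_of_dvd (by omega) (hone t h)
    omega
  obtain ⟨q, hq⟩ : ∃ q : ℕ, q + 1 = m * N := ⟨m * N - 1, by
    have : 0 < m * N := Nat.mul_pos (by omega) hN
    omega⟩
  have hqz : (q : ℤ) + 1 = (m : ℤ) * N := by exact_mod_cast hq
  have hz0 : z (t0 + (m : ℤ) * N) = z t0 := ((hper t0 (t0 + (m : ℤ) * N)).2 ⟨1, by ring⟩).2.symm
  have hP1 : PL (lf E₁) (z (t0 + 1)) (z t0) (wd W (t0 + 1) q) := by
    have h1 := run_pl hrun₁ (t := t0 + 1) le_rfl q (by omega)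
    have h2 : t0 + 1 + (q : ℤ) = t0 + (m : ℤ) * N := by omega
    rwa [h2, hz0] at h1
  have hu : PL (lf E₁) (z (t0 + 1)) (z (t0 + 1 + N)) (wd W (t0 + 1) N) :=
    run_pl hrun₁ (t := t0 + 1) le_rfl N (by omega)
  have hne : z (t0 + 1) ≠ z (t0 + 1 + N) := by
    intro h
    have h1 := (hper (t0 + 1) (t0 + 1 + N)).1 ⟨⟨1, by ring⟩, h⟩
    have h2 := Int.le_of_dvd (by omega) h1
    omega
  have hconn : Conn E₁ := by
    rw [hE₁]
    apply BB_conn hE
    rw [← hE₁]
    by_cases hb : (W t0).2 = true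
    · refine ⟨(wd W (t0 + 1) q)⁻¹, ?_⟩
      unfold ed
      rw [if_pos hb]
      exact hP1.symm
    · refine ⟨wd W (t0 + 1) q, ?_⟩
      unfold ed
      rw [if_neg hb]
      exact hP1
  -- generators
  have himg : ((E₁.image fun e => (e.1, FreeGroup.of e.2.1, e.2.2) : Finset (V × Fr k × V)) :
      Set (V × Fr k × V)) = lf E₁ := by
    ext p
    rw [Finset.mem_coe, Finset.mem_image]
    constructor
    · rintro ⟨e, he, rfl⟩
      exact ⟨e, he, rfl⟩
    · rintro ⟨e, he, rfl⟩
      exact ⟨e, he, rfl⟩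
  obtain ⟨m', r, hm', hr⟩ := hGR V (Fr k)
    (E₁.image fun e => (e.1, FreeGroup.of e.2.1, e.2.2)) v0 (by
      rw [himg]
      exact hconn)
  rw [himg] at hr
  have hm2 : m' + Fintype.card V ≤ E.card := by
    have := Finset.card_image_le (s := E₁)
      (f := fun e : V × Fin k × V => (e.1, FreeGroup.of e.2.1, e.2.2))
    omega
  obtain ⟨g, hg⟩ := hconn v0 (z (t0 + 1))
  -- the quotient graph
  let V' : Type := {v : V // v ≠ z (t0 + 1 + N)}
  let f : V → V' := fun v => if h : v = z (t0 + 1 + N) then ⟨z (t0 + 1), hne⟩ else ⟨v, h⟩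
  have hfy' : f (z (t0 + 1 + N)) = ⟨z (t0 + 1), hne⟩ := dif_pos rfl
  have hfv : ∀ v (h : v ≠ z (t0 + 1 + N)), f v = ⟨v, h⟩ := fun v h => dif_neg h
  have hfy : f (z (t0 + 1)) = f (z (t0 + 1 + N)) := by
    rw [hfy', hfv _ hne]
  have hff : ∀ a b, f a = f b → a = b ∨ (a = z (t0 + 1) ∧ b = z (t0 + 1 + N)) ∨
      (a = z (t0 + 1 + N) ∧ b = z (t0 + 1)) := by
    intro a b hab
    by_cases ha : a = z (t0 + 1 + N)
    · by_cases hb : b = z (t0 + 1 + N)
      · left; rw [ha, hb]
      · rw [ha, hfy', hfv b hb, Subtype.mk.injEq] at hab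
        right; right
        exact ⟨ha, hab.symm⟩
    · by_cases hb : b = z (t0 + 1 + N)
      · rw [hb, hfy', hfv a ha, Subtype.mk.injEq] at hab
        right; left
        exact ⟨hab, hb⟩
      · rw [hfv a ha, hfv b hb, Subtype.mk.injEq] at hab
        left
        exact hab
  have hQ := hQU V V' (Fr k) (lf E₁) f (z (t0 + 1)) (z (t0 + 1 + N)) v0 (wd W (t0 + 1) N) g hff
    hfy hu hg
  let E' : Gr V' k := E₁.image fun d => (f d.1, d.2.1, f d.2.2)
  have hlf : lf E' = {p : V' × Fr k × V' | ∃ a x b, (a, x, b) ∈ lf E₁ ∧ p = (f a, x, f b)} := by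
    ext p
    constructor
    · rintro ⟨e, he, rfl⟩
      obtain ⟨d, hd, rfl⟩ := Finset.mem_image.1 he
      exact ⟨d.1, FreeGroup.of d.2.1, d.2.2, mem_lf hd, rfl⟩
    · rintro ⟨a, x, b, ⟨d, hd, hde⟩, rfl⟩
      rw [Prod.mk.injEq, Prod.mk.injEq] at hde
      obtain ⟨rfl, rfl, rfl⟩ := hde
      exact mem_lf (Finset.mem_image_of_mem _ hd)
  obtain ⟨c, hc1, hc2⟩ := BB_tuple (k := k) r (by omega) (g * wd W (t0 + 1) N * g⁻¹)
    {h | PL (lf E₁) v0 v0 h} hr
  have hloop : IsLoop E' (f v0) c := by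
    intro h
    rw [hlf, hQ h, hc2]
  have hcardV : Fintype.card V' + 1 = Fintype.card V := by
    have h1 : Fintype.card V' = (Finset.univ.erase (z (t0 + 1 + N))).card := by
      apply Fintype.card_of_subtype
      intro x
      simp
    rw [h1, Finset.card_erase_add_one (Finset.mem_univ _), Finset.card_univ]
  have hcardE : E'.card ≤ E₁.card := Finset.card_image_le
  refine ⟨V', inferInstance, E', f v0, c, by omega, hloop, ?_, ?_⟩
  · obtain ⟨i, hi⟩ := hc1
    obtain ⟨g1, hg1⟩ := hW.wd_conj (t0 + 1) 0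
    refine ⟨i, g * g1, ?_⟩
    rw [hi, hg1]
    group
  · intro h hh
    rw [← hloop]
    -- images of the edges
    have hmap : ∀ {a b : V} {x : Fr k}, PL (lf E₁) a b x → PL (lf E') (f a) (f b) x := by
      intro a b x hx
      refine PL.map f ?_ hx
      intro a x b hax
      apply PL.edge
      rw [hlf]
      exact ⟨a, x, b, hax, rfl⟩
    have huc : wd W (t0 + 1) N ∈ loopG (lf E') (f (z (t0 + 1))) := by
      rw [mem_loopG]
      have h1 := hmap hu
      rwa [← hfy] at h1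
    have hpow : wd W (t0 + 1) (m * N) ∈ loopG (lf E') (f (z (t0 + 1))) := by
      rw [hW.wd_mul]
      exact Subgroup.pow_mem _ huc m
    have hlt : PL (lf E') (f (z t0)) (f (z (t0 + 1))) (lt (W t0)) := by
      have h1 := (mem_loopG.1 hpow).symm.trans (hmap hP1)
      have h2 : (wd W (t0 + 1) (m * N))⁻¹ * wd W (t0 + 1) q = (lt (W t0))⁻¹ := by
        rw [← hq, wd_succ]
        have h3 : W (t0 + 1 + q) = W t0 := by
          apply hW.per_dvd
          refine ⟨m, ?_⟩
          linarith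
        rw [h3]
        group
      rw [h2] at h1
      have h3 := h1.symm
      rwa [inv_inv] at h3
    refine PL.map f ?_ hh
    rintro a x b ⟨e, he, hex⟩
    rw [Prod.mk.injEq, Prod.mk.injEq] at hex
    obtain ⟨rfl, rfl, rfl⟩ := hex
    by_cases h0 : e = ed W z t0
    · rw [h0]
      by_cases hb : (W t0).2 = true
      · unfold ed
        rw [if_pos hb]
        have h1 : lt (W t0) = FreeGroup.of (W t0).1 := by
          have : W t0 = ((W t0).1, true) := Prod.ext rfl hb
          rw [this, lt_true]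
        rw [h1] at hlt
        exact hlt
      · unfold ed
        rw [if_neg hb]
        have h1 : lt (W t0) = (FreeGroup.of (W t0).1)⁻¹ := by
          have : W t0 = ((W t0).1, false) := Prod.ext rfl (by simpa using hb)
          rw [this, lt_false]
        rw [h1] at hlt
        have h2 := hlt.symm
        rwa [inv_inv] at h2
    · have h1 : e ∈ E₁ := by
        rw [hE₁]
        exact Finset.mem_erase.2 ⟨h0, he⟩
      exact hmap (PL.edge (mem_lf h1))

end Pool.Agent.WN
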